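import Pool.Agent.Helper175_AZ.Atiyah2

set_option autoImplicit false

/-! # The Atiyah conjecture: extensions with amenable left-orderable quotients

If `N` is a normal subgroup of `G` for which all kernel dimensions are integers, and `G / N` is
amenable and has a total order invariant under right multiplication, then all kernel dimensions
for `G` are integers.

Idea: for a finite set `C` of cosets of `N` let `D(C)` be the dimension over `N` of the part of the
kernel which is supported on `C`. It is the kernel dimension of a matrix over `N`, hence an integer;
it is supermodular in `C` and invariant under right translation of `C`, and `D(C) / |C|` tends to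
the dimension of the kernel along Følner sets. Add the cosets of `C` in increasing order: the
increments of `D` are bounded integers, and by supermodularity and invariance nearly all of them
are equal to the largest increment that ever occurs. So this integer is the dimension. -/

namespace Pool.Agent.Results.MP_95030e_al.AmenableOrderedQuotient

/-- All square-summable row vectors `x`, indexed by `K × G`, with `x A = 0`. -/
def kernel {G K L : Type} [Group G] [Fintype K] (A : K → L → (G →₀ ℂ)) :
    Set (lp (fun _ : K × G => ℂ) 2) :=
  {x | ∀ (j : L) (g : G), ∑ k : K, ∑ h ∈ (A k j).support, x (k, g * h⁻¹) * A k j h = 0}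

open Classical in
/-- The von Neumann dimension of the kernel of right multiplication by `A`: the sum over `i` of one
minus the square of the distance from the basis vector at `(i, 1)` to the kernel. -/
noncomputable def kerDim {G K L : Type} [Group G] [Fintype K] (A : K → L → (G →₀ ℂ)) : ℝ :=
  ∑ i : K, (1 - Metric.infDist
    (lp.single (E := fun _ : K × G => ℂ) 2 (i, (1 : G)) (1 : ℂ)) (kernel A) ^ 2)

/-- All kernel dimensions of matrices over `R[G]` are integers. For `R = ℚ` this is the Atiyah
conjecture for a torsion-free group `G`. -/
def Integral (R : Subring ℂ) (G : Type) [Group G] : Prop :=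
  ∀ (K L : Type) [Fintype K] [Fintype L] (A : K → L → (G →₀ ℂ)),
    (∀ k l g, A k l g ∈ R) → ∃ z : ℤ, kerDim A = z

open Classical in
/-- Amenability, in the form of Følner's condition: for every finite set `T` and `ε > 0` there is a
nonempty finite set `C` such that `T C` has at most `(1 + ε) |C|` elements. -/
def Amenable (Q : Type) [Group Q] : Prop := ∀ (T : Finset Q) (ε : ℝ), 0 < ε →
  ∃ C : Finset Q, C.Nonempty ∧ (((T ×ˢ C).image (fun p => p.1 * p.2)).card : ℝ) ≤ (1 + ε) * C.card

/-- There is a total order on `Q` which is invariant under right multiplication (equivalently, by
inversion, one which is invariant under left multiplication). -/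
def Orderable (Q : Type) [Group Q] : Prop :=
  ∃ O : LinearOrder Q, ∀ a b c : Q, O.le a b → O.le (a * c) (b * c)

open Pool.Agent.W649.ZL Pool.Agent.Helper175_AZ

theorem kerDim_eq {G K L : Type} [Group G] [Fintype K] [Fintype L] (i : DecidableEq K)
    (A : K → L → (G →₀ ℂ)) : kerDim A = kerDimM A := by
  have h : i = (fun a b => Classical.propDecidable (a = b)) := Subsingleton.elim _ _
  subst h
  rfl

/-- **Extensions with amenable left-orderable quotients.** Let `R` be a subring of `ℂ` (for example
`ℚ` or `ℂ`) and `N` a normal subgroup of `G` such that `G / N` is amenable and orderable. If all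
kernel dimensions of matrices over `R[N]` are integers, then all kernel dimensions of matrices over
`R[G]` are integers. -/
theorem result (R : Subring ℂ) (G : Type) [Group G] (N : Subgroup G) [N.Normal]
    (ham : Amenable (G ⧸ N)) (hord : Orderable (G ⧸ N)) (hN : Integral R N) : Integral R G := by
  have hN' : AtR R N := by
    intro K L _ _ _ A hA
    obtain ⟨z, hz⟩ := hN K L A hA
    exact ⟨z, by rw [← hz, kerDim_eq _ A]⟩
  have hF : Folner (G ⧸ N) := ham
  have h := atiyah_ext R G N hord hF hN'
  classical
  intro K L _ _ A hA
  obtain ⟨z, hz⟩ := h K L A hA
  exact ⟨z, by rw [← hz, kerDim_eq _ A]⟩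

end Pool.Agent.Results.MP_95030e_al.AmenableOrderedQuotient
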